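import Mathlib

/-!
# Every finite connected graph is a confluent image of a vertex-transitive finite connected graph

Let `H` be a finite connected reflexive graph and let `W` be the group of permutations of `V(H)`
generated by the transpositions `(a b)`, `ab` an edge of `H`.  The Cayley graph of `W` with
respect to these transpositions is connected and vertex-transitive.  For a fixed vertex `x₀`
the map `g ↦ g⁻¹ x₀` is a confluent epimorphism onto `H`: the neighbour `g * (a b)` of `g` is
mapped to `(a b) (g⁻¹ x₀)`, so every edge of `H` at `f g` is lifted to an edge at `g`.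
-/

namespace Pool.Agent.Results.MP_be9f3f_co.HomogeneousCover

/-- A graph on the vertex set `V` in the sense of the problem: a reflexive and symmetric
relation (the edge set) on `V`. -/
structure RGraph (V : Type*) where
  /-- the edge relation -/
  Adj : V → V → Prop
  refl : ∀ a, Adj a a
  symm : ∀ a b, Adj a b → Adj b a

variable {V W : Type*}

/-- A set of vertices is connected if it is not the union of two nonempty parts with no edge
between them. -/
def RGraph.ConnSet (A : RGraph V) (S : Set V) : Prop :=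
  ¬ ∃ P Q : Set V, P.Nonempty ∧ Q.Nonempty ∧ P ∪ Q = S ∧ ∀ p ∈ P, ∀ q ∈ Q, ¬ A.Adj p q

/-- A graph is connected if its set of vertices is connected. -/
def RGraph.Conn (A : RGraph V) : Prop := A.ConnSet Set.univ

/-- A component of `S` is a maximal connected subset of `S`. -/
def RGraph.IsComp (A : RGraph V) (S C : Set V) : Prop :=
  Maximal (fun D : Set V => D ⊆ S ∧ A.ConnSet D) C

/-- A homomorphism maps edges to edges (possibly to loops). -/
def IsHom (A : RGraph V) (B : RGraph W) (f : V → W) : Prop :=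
  ∀ a b, A.Adj a b → B.Adj (f a) (f b)

/-- An epimorphism is a homomorphism that is surjective on vertices and on edges. -/
def IsEpi (A : RGraph V) (B : RGraph W) (f : V → W) : Prop :=
  IsHom A B f ∧ Function.Surjective f ∧
    ∀ u v, B.Adj u v → ∃ a b, A.Adj a b ∧ f a = u ∧ f b = v

/-- An isomorphism is an injective epimorphism. -/
def IsIso (A : RGraph V) (B : RGraph W) (f : V → W) : Prop :=
  IsEpi A B f ∧ Function.Injective f

/-- An epimorphism is confluent if each component of the preimage of a connected set `Q` is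
mapped onto `Q`. -/
def IsConfluentEpi (A : RGraph V) (B : RGraph W) (f : V → W) : Prop :=
  IsEpi A B f ∧ ∀ Q : Set W, B.ConnSet Q → ∀ C : Set V, A.IsComp (f ⁻¹' Q) C → f '' C = Q

/-- A graph is homogeneous if any vertex is mapped to any other one by an automorphism. -/
def RGraph.Homogeneous (A : RGraph V) : Prop :=
  ∀ x y : V, ∃ f : V → V, IsIso A A f ∧ f x = y

/-- A component together with a vertex of `S` adjacent to it is impossible. -/
theorem comp_closed (A : RGraph V) {S C : Set V} (hC : A.IsComp S C) {a b : V} (ha : a ∈ C)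
    (hb : b ∈ S) (hab : A.Adj a b) : b ∈ C := by
  by_contra hbC
  have hconn : A.ConnSet (insert b C) := by
    rintro ⟨P, Q, hP, hQ, hPQ, hno⟩
    have hCc : A.ConnSet C := hC.prop.2
    -- the traces of the parts on `C`
    have key : ∀ P Q : Set V, P.Nonempty → Q.Nonempty → P ∪ Q = insert b C →
        (∀ p ∈ P, ∀ q ∈ Q, ¬ A.Adj p q) → b ∈ P → False := by
      intro P Q hP hQ hPQ hno hbP
      have hbQ : b ∉ Q := fun h => hno b hbP b h (A.refl b)
      have haP : a ∈ P := by
        have : a ∈ P ∪ Q := by rw [hPQ]; exact Or.inr ha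
        rcases this with h | h
        · exact h
        · exact absurd (A.symm _ _ hab) (hno b hbP a h)
      have hba : a ≠ b := fun h => hbC (h ▸ ha)
      refine hCc ⟨P \ {b}, Q, ⟨a, haP, hba⟩, hQ, ?_, fun p hp q hq => hno p hp.1 q hq⟩
      ext x
      constructor
      · rintro (⟨h1, h2⟩ | h)
        · have : x ∈ P ∪ Q := Or.inl h1
          rw [hPQ] at this
          rcases this with h | h
          · exact absurd h h2
          · exact h
        · have : x ∈ P ∪ Q := Or.inr h
          rw [hPQ] at this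
          rcases this with h' | h'
          · exact absurd (h' ▸ h) hbQ
          · exact h'
      · intro hx
        have : x ∈ P ∪ Q := by rw [hPQ]; exact Or.inr hx
        rcases this with h | h
        · exact Or.inl ⟨h, fun h' => hbC (by rw [Set.mem_singleton_iff] at h'; exact h' ▸ hx)⟩
        · exact Or.inr h
    have hb' : b ∈ P ∪ Q := by rw [hPQ]; exact Or.inl rfl
    rcases hb' with h | h
    · exact key P Q hP hQ hPQ hno h
    · refine key Q P hQ hP (by rw [Set.union_comm]; exact hPQ) ?_ h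
      intro p hp q hq hpq
      exact hno q hq p hp (A.symm _ _ hpq)
  have hsub : insert b C ⊆ S := Set.insert_subset hb hC.prop.1
  have := hC.le_of_ge ⟨hsub, hconn⟩ (Set.subset_insert b C)
  exact hbC (this (Set.mem_insert b C))

/-- A map that lifts every edge at every vertex is confluent, provided it is an epimorphism. -/
theorem confluent_of_lift (A : RGraph V) (B : RGraph W) (f : V → W) (he : IsEpi A B f)
    (hl : ∀ a v, B.Adj (f a) v → ∃ b, A.Adj a b ∧ f b = v) : IsConfluentEpi A B f := by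
  refine ⟨he, ?_⟩
  intro Q hQ C hC
  apply Set.Subset.antisymm
  · rintro _ ⟨x, hx, rfl⟩
    exact hC.prop.1 hx
  · by_contra hnot
    rw [Set.not_subset] at hnot
    obtain ⟨q, hq, hqC⟩ := hnot
    -- the component is nonempty
    have hCne : C.Nonempty := by
      by_contra hne
      rw [Set.not_nonempty_iff_eq_empty] at hne
      obtain ⟨x, hx⟩ := he.2.1 q
      have hxs : A.ConnSet ({x} : Set V) := by
        rintro ⟨P, R, ⟨p, hp⟩, ⟨r, hr⟩, hPR, hno⟩
        have hp' : p ∈ ({x} : Set V) := by rw [← hPR]; exact Or.inl hp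
        have hr' : r ∈ ({x} : Set V) := by rw [← hPR]; exact Or.inr hr
        rw [Set.mem_singleton_iff] at hp' hr'
        subst hp'
        subst hr'
        exact hno _ hp _ hr (A.refl _)
      have hxS : ({x} : Set V) ⊆ f ⁻¹' Q := by
        intro y hy
        rw [Set.mem_singleton_iff] at hy
        subst hy
        simpa [hx] using hq
      have := hC.le_of_ge ⟨hxS, hxs⟩ (by rw [hne]; exact Set.empty_subset _)
      rw [hne] at this
      exact this (Set.mem_singleton x)
    obtain ⟨c, hc⟩ := hCne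
    refine hQ ⟨f '' C, Q \ f '' C, ⟨f c, c, hc, rfl⟩, ⟨q, hq, hqC⟩, ?_, ?_⟩
    · refine Set.union_sdiff_cancel ?_
      rintro _ ⟨x, hx, rfl⟩
      exact hC.prop.1 hx
    · rintro _ ⟨x, hx, rfl⟩ v ⟨hvQ, hvC⟩ hadj
      obtain ⟨b, hb1, hb2⟩ := hl x v hadj
      exact hvC ⟨b, comp_closed A hC hx (by simpa [hb2] using hvQ) hb1, hb2⟩

/-- The group generated by the transpositions along the edges of `H`. -/
def grp [DecidableEq V] (H : RGraph V) : Subgroup (Equiv.Perm V) :=
  Subgroup.closure {s | ∃ a b, H.Adj a b ∧ s = Equiv.swap a b}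

theorem swap_mem [DecidableEq V] (H : RGraph V) {a b : V} (h : H.Adj a b) :
    Equiv.swap a b ∈ grp H := Subgroup.subset_closure ⟨a, b, h, rfl⟩

/-- The Cayley graph. -/
def cay [DecidableEq V] (H : RGraph V) : RGraph (grp H) where
  Adj g h := g = h ∨ ∃ a b, H.Adj a b ∧ (h : Equiv.Perm V) = g * Equiv.swap a b
  refl g := Or.inl rfl
  symm := by
    rintro g h (h1 | ⟨a, b, h1, h2⟩)
    · exact Or.inl h1.symm
    · refine Or.inr ⟨a, b, h1, ?_⟩
      rw [h2, mul_assoc, Equiv.swap_mul_self, mul_one]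

theorem cay_homogeneous [DecidableEq V] (H : RGraph V) : (cay H).Homogeneous := by
  intro x y
  refine ⟨fun g => (y * x⁻¹) * g, ⟨⟨?_, ?_, ?_⟩, ?_⟩, ?_⟩
  · rintro g h (rfl | ⟨a, b, h1, h2⟩)
    · exact Or.inl rfl
    · refine Or.inr ⟨a, b, h1, ?_⟩
      simp only [Subgroup.coe_mul, h2, mul_assoc]
  · intro g
    exact ⟨(y * x⁻¹)⁻¹ * g, mul_inv_cancel_left _ _⟩
  · rintro u v (rfl | ⟨a, b, h1, h2⟩)
    · exact ⟨(y * x⁻¹)⁻¹ * u, (y * x⁻¹)⁻¹ * u, Or.inl rfl, mul_inv_cancel_left _ _,
        mul_inv_cancel_left _ _⟩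
    · refine ⟨(y * x⁻¹)⁻¹ * u, (y * x⁻¹)⁻¹ * v, Or.inr ⟨a, b, h1, ?_⟩,
        mul_inv_cancel_left _ _, mul_inv_cancel_left _ _⟩
      simp only [Subgroup.coe_mul, h2, mul_assoc]
  · intro g h hgh
    exact mul_left_cancel hgh
  · simp

theorem cay_conn [DecidableEq V] (H : RGraph V) : (cay H).Conn := by
  rintro ⟨P, Q, ⟨p, hp⟩, ⟨q, hq⟩, hPQ, hno⟩
  have hstep : ∀ g h : grp H, (cay H).Adj g h → (g ∈ P → h ∈ P) := by
    intro g h hgh hg
    have : h ∈ P ∪ Q := by rw [hPQ]; trivial
    rcases this with h' | h'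
    · exact h'
    · exact absurd hgh (hno g hg h h')
  have key : ∀ s : Equiv.Perm V, ∀ hs : s ∈ grp H, ∀ g : grp H, g ∈ P ↔ g * ⟨s, hs⟩ ∈ P := by
    intro s hs
    refine Subgroup.closure_induction (p := fun s hs => ∀ g : grp H, g ∈ P ↔ g * ⟨s, hs⟩ ∈ P)
      ?_ ?_ ?_ ?_ hs
    · rintro s ⟨a, b, hab, rfl⟩ g
      constructor
      · exact hstep _ _ (Or.inr ⟨a, b, hab, rfl⟩)
      · intro h
        exact hstep _ _ ((cay H).symm _ _ (Or.inr ⟨a, b, hab, rfl⟩)) h
    · intro g
      have : (⟨1, Subgroup.one_mem _⟩ : grp H) = 1 := rfl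
      rw [this, mul_one]
    · intro x y hx hy ihx ihy g
      have : (⟨x * y, Subgroup.mul_mem _ hx hy⟩ : grp H) = ⟨x, hx⟩ * ⟨y, hy⟩ := rfl
      rw [this, ← mul_assoc, ← ihy, ← ihx]
    · intro x hx ih g
      have h1 : (⟨x⁻¹, Subgroup.inv_mem _ hx⟩ : grp H) = (⟨x, hx⟩ : grp H)⁻¹ := rfl
      rw [h1, ih (g * (⟨x, hx⟩ : grp H)⁻¹), inv_mul_cancel_right]
  have h1 := (key _ (p⁻¹ * q).2 p).1 hp
  have h2 : p * ⟨((p⁻¹ * q : grp H) : Equiv.Perm V), (p⁻¹ * q).2⟩ = q := by
    rw [Subtype.coe_eta]; simp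
  rw [h2] at h1
  exact hno q h1 q hq ((cay H).refl q)

/-- The answer to Q1 is yes: for every finite connected graph `H` there are a finite connected
homogeneous graph `G` and a confluent epimorphism from `G` onto `H`. -/
theorem result (V : Type) [Finite V] (H : RGraph V) (hH : H.Conn) :
    ∃ (W : Type) (_ : Finite W) (G : RGraph W), G.Conn ∧ G.Homogeneous ∧
      ∃ f : W → V, IsConfluentEpi G H f := by
  classical
  rcases isEmpty_or_nonempty V with hV | ⟨⟨x₀⟩⟩
  · refine ⟨V, inferInstance, H, hH, fun x => (hV.false x).elim, fun x => x, ?_⟩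
    refine ⟨⟨fun a => (hV.false a).elim, fun a => (hV.false a).elim,
      fun a => (hV.false a).elim⟩, fun Q _ C _ => ?_⟩
    ext x
    exact (hV.false x).elim
  · refine ⟨grp H, inferInstance, cay H, cay_conn H, cay_homogeneous H,
      fun g => (g : Equiv.Perm V)⁻¹ x₀, ?_⟩
    have hlift : ∀ (g : grp H) (v : V), H.Adj ((g : Equiv.Perm V)⁻¹ x₀) v →
        ∃ b : grp H, (cay H).Adj g b ∧ ((b : Equiv.Perm V)⁻¹ x₀) = v := by
      intro g v hv
      refine ⟨g * ⟨_, swap_mem H hv⟩, Or.inr ⟨_, _, hv, rfl⟩, ?_⟩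
      simp [mul_inv_rev]
    have hsurj : Function.Surjective (fun g : grp H => (g : Equiv.Perm V)⁻¹ x₀) := by
      by_contra hns
      apply hH
      refine ⟨Set.range (fun g : grp H => (g : Equiv.Perm V)⁻¹ x₀),
        (Set.range (fun g : grp H => (g : Equiv.Perm V)⁻¹ x₀))ᶜ, ⟨_, 1, rfl⟩, ?_, ?_, ?_⟩
      · rw [Set.nonempty_compl]
        intro h
        exact hns (Set.range_eq_univ.1 h)
      · exact Set.union_compl_self _
      · rintro _ ⟨g, rfl⟩ v hv hadj
        obtain ⟨b, _, hb⟩ := hlift g v hadj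
        exact hv ⟨b, hb⟩
    refine confluent_of_lift _ _ _ ⟨?_, hsurj, ?_⟩ hlift
    · rintro g h (rfl | ⟨a, b, hab, h2⟩)
      · exact H.refl _
      · simp only [h2, mul_inv_rev, Equiv.swap_inv, Equiv.Perm.coe_mul, Function.comp_apply]
        by_cases h3 : (g : Equiv.Perm V)⁻¹ x₀ = a
        · rw [h3, Equiv.swap_apply_left]; exact hab
        · by_cases h4 : (g : Equiv.Perm V)⁻¹ x₀ = b
          · rw [h4, Equiv.swap_apply_right]; exact H.symm _ _ hab
          · rw [Equiv.swap_apply_of_ne_of_ne h3 h4]; exact H.refl _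
    · intro u v huv
      obtain ⟨g, rfl⟩ := hsurj u
      obtain ⟨b, hb1, hb2⟩ := hlift g v huv
      exact ⟨g, b, hb1, rfl, hb2⟩

end Pool.Agent.Results.MP_be9f3f_co.HomogeneousCover
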